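import Pool.Agent.W757.BL.Defs

/-! BL-AUB (owner helper757): maximal polygons do not cross. -/

set_option autoImplicit false

namespace Pool.Agent.W216.BL

open Set Filter Topology
open Pool.Agent.W757.BL

theorem pol_lt {L : ℝ} {n : ℕ} {c : ℕ → ℝ} (h : Pol L n c) {i j : ℕ} (hij : i < j) : c i < c j :=
  strictMono_nat_of_lt_succ h.mono hij

theorem pol_edge {L : ℝ} {n : ℕ} {c : ℕ → ℝ} (h : Pol L n c) (hn : 2 ≤ n) (i : ℕ) :
    c (i + 1) < c i + L := by
  rw [← h.per]
  exact pol_lt h (by omega)

theorem pol_perk {L : ℝ} {n : ℕ} {c : ℕ → ℝ} (h : Pol L n c) (k : ℕ) :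
    c (k * n) = c 0 + k * L := by
  induction k with
  | zero => simp
  | succ k ih =>
    rw [Nat.succ_mul, h.per, ih]
    push_cast
    ring

variable {x y x' y' : ℝ → ℝ} {L : ℝ} {n : ℕ} {m : ℝ}

theorem max_edge (hF : CF x y x' y' L) {a b a' b' : ℝ} (h1 : a < b) (h2 : a' < b')
    (h3 : b ≤ a + L) (h4 : b' ≤ a' + L) :
    hh x y a b + hh x y a' b' ≤
      hh x y (max a a') (max b b') + hh x y (min a a') (min b b') := by
  rcases le_total a a' with ha | ha <;> rcases le_total b b' with hb | hb
  · rw [max_eq_right ha, max_eq_right hb, min_eq_left ha, min_eq_left hb, add_comm]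
  · rw [max_eq_right ha, max_eq_left hb, min_eq_left ha, min_eq_right hb]
    have := hF.quad a a' b' b ha h2.le hb h3
    linarith
  · rw [max_eq_left ha, max_eq_right hb, min_eq_right ha, min_eq_left hb]
    have := hF.quad a' a b b' ha h1.le hb h4
    linarith
  · rw [max_eq_left ha, max_eq_left hb, min_eq_right ha, min_eq_right hb]

theorem max_pol (hn : 2 ≤ n) (hF : CF x y x' y' L) (hmax : ∀ c, Pol L n c → SS x y n c ≤ m)
    {c d : ℕ → ℝ} (hc : Pol L n c) (hcm : SS x y n c = m) (hd : Pol L n d)
    (hdm : SS x y n d = m) : Pol L n (fun i => max (c i) (d i)) ∧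
      SS x y n (fun i => max (c i) (d i)) = m := by
  have h1 : Pol L n (fun i => max (c i) (d i)) :=
    ⟨fun i => max_lt_max (hc.mono i) (hd.mono i), fun i => by
      simp only [hc.per, hd.per]
      rw [max_add_add_right]⟩
  have h2 : Pol L n (fun i => min (c i) (d i)) :=
    ⟨fun i => min_lt_min (hc.mono i) (hd.mono i), fun i => by
      simp only [hc.per, hd.per]
      rw [min_add_add_right]⟩
  have h3 : SS x y n c + SS x y n d ≤
      SS x y n (fun i => max (c i) (d i)) + SS x y n (fun i => min (c i) (d i)) := by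
    unfold SS
    rw [← Finset.sum_add_distrib, ← Finset.sum_add_distrib]
    apply Finset.sum_le_sum
    intro i _
    exact max_edge hF (hc.mono i) (hd.mono i) (pol_edge hc hn i).le (pol_edge hd hn i).le
  have h4 := hmax _ h1
  have h5 := hmax _ h2
  exact ⟨h1, by linarith⟩

theorem eq_of_le (h : S_FV) (hC : Cv x y x' y' L) (hF : CF x y x' y' L) (hn : 2 ≤ n)
    (hmax : ∀ c, Pol L n c → SS x y n c ≤ m) {c e : ℕ → ℝ} (hc : Pol L n c)
    (hcm : SS x y n c = m) (he : Pol L n e) (hem : SS x y n e = m) (hle : ∀ i, c i ≤ e i)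
    (h0 : c 0 = e 0) : c = e := by
  have hfc := h x y x' y' L n m hC hF hn hmax c hc hcm
  have hfe := h x y x' y' L n m hC hF hn hmax e he hem
  have h1 : c 1 = e 1 := by
    obtain ⟨k, rfl⟩ : ∃ k, n = k + 1 := ⟨n - 1, by omega⟩
    have hn0 : c (k + 1) = e (k + 1) := by
      have e1 := hc.per 0
      have e2 := he.per 0
      rw [zero_add] at e1 e2
      rw [e1, e2, h0]
    have hn1 : c (k + 2) = c 1 + L := by
      have := hc.per 1
      rwa [show 1 + (k + 1) = k + 2 by ring] at this
    have hn2 : e (k + 2) = e 1 + L := by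
      have := he.per 1
      rwa [show 1 + (k + 1) = k + 2 by ring] at this
    have hlast : c (k + 2) = e (k + 2) := by
      by_contra hne
      have hlt : c (k + 2) < e (k + 2) := lt_of_le_of_ne (hle _) hne
      have e1 := hfc k
      have e2 := hfe k
      have e3 : h1 x y x' y' (c (k + 1)) (c (k + 2)) < h1 x y x' y' (e (k + 1)) (e (k + 2)) := by
        rw [hn0]
        refine hF.m1 _ _ _ ?_ hlt (pol_edge he hn (k + 1))
        rw [← hn0]
        exact hc.mono (k + 1)
      have e4 : h2 x y x' y' (c k) (c (k + 1)) ≤ h2 x y x' y' (e k) (e (k + 1)) := by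
        rw [hn0]
        rcases (hle k).lt_or_eq with h5 | h5
        · refine (hF.m2 _ _ _ h5 (he.mono k) ?_).le
          rw [← hn0]
          exact pol_edge hc hn k
        · rw [h5]
      linarith
    linarith
  have key : ∀ i, c i = e i ∧ c (i + 1) = e (i + 1) := by
    intro i
    induction i with
    | zero => exact ⟨h0, h1⟩
    | succ i ih =>
      refine ⟨ih.2, ?_⟩
      by_contra hne
      have hlt : c (i + 2) < e (i + 2) := lt_of_le_of_ne (hle _) hne
      have e1 := hfc i
      have e2 := hfe i
      rw [ih.1, ih.2] at e1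
      have e3 : Pool.Agent.W757.BL.h1 x y x' y' (e (i + 1)) (c (i + 2)) <
          Pool.Agent.W757.BL.h1 x y x' y' (e (i + 1)) (e (i + 2)) := by
        refine hF.m1 _ _ _ ?_ hlt (pol_edge he hn (i + 1))
        rw [← ih.2]
        exact hc.mono (i + 1)
      linarith
  funext i
  exact (key i).1

theorem shift_SS (hF : CF x y x' y' L) {c : ℕ → ℝ} (hc : Pol L n c) (k : ℕ) :
    SS x y n (fun i => c (i + k)) = SS x y n c := by
  induction k with
  | zero => rfl
  | succ k ih =>
    rw [← ih]
    unfold SS
    have h1 := Finset.sum_range_succ (fun i => hh x y (c (i + k)) (c (i + 1 + k))) n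
    have h2 := Finset.sum_range_succ' (fun i => hh x y (c (i + k)) (c (i + 1 + k))) n
    rw [h1] at h2
    have h3 : hh x y (c (n + k)) (c (n + 1 + k)) = hh x y (c (0 + k)) (c (0 + 1 + k)) := by
      rw [show n + k = (0 + k) + n by ring, show n + 1 + k = (0 + 1 + k) + n by ring, hc.per,
        hc.per, hF.per]
    rw [h3] at h2
    have h4 := add_right_cancel h2
    rw [h4]
    apply Finset.sum_congr rfl
    intro i _
    beta_reduce
    rw [show i + (k + 1) = i + 1 + k by ring, show i + 1 + (k + 1) = i + 1 + 1 + k by ring]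

theorem shift_pol {c : ℕ → ℝ} (hc : Pol L n c) (k : ℕ) : Pol L n (fun i => c (i + k)) :=
  ⟨fun i => by
    have := hc.mono (i + k)
    rwa [show i + k + 1 = i + 1 + k by ring] at this, fun i => by
    have := hc.per (i + k)
    rwa [show i + k + n = i + n + k by ring] at this⟩

theorem t_AUB (h : S_FV) : S_AUB := by
  intro x y x' y' L n m hC hF hn hmax
  have key : ∀ c d, Pol L n c → SS x y n c = m → Pol L n d → SS x y n d = m → c 0 = d 0 →
      c = d := by
    intro c d hc hcm hd hdm h0
    obtain ⟨he, hem⟩ := max_pol hn hF hmax hc hcm hd hdm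
    have h1 := eq_of_le h hC hF hn hmax hc hcm he hem (fun i => le_max_left _ _)
      (by simp only [h0, max_self])
    have h2 := eq_of_le h hC hF hn hmax hd hdm he hem (fun i => le_max_right _ _)
      (by simp only [h0, max_self])
    rw [h1]
    exact h2.symm
  intro c d hc hcm hd hdm
  refine ⟨key c d hc hcm hd hdm, ?_⟩
  intro h0
  obtain ⟨he, hem⟩ := max_pol hn hF hmax hc hcm hd hdm
  have h2 := eq_of_le h hC hF hn hmax hd hdm he hem (fun i => le_max_right _ _)
    (by simp only [max_eq_right h0.le])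
  have hle : ∀ i, c i ≤ d i := by
    intro i
    have := congrFun h2 i
    rw [this]
    exact le_max_left _ _
  intro i
  refine lt_of_le_of_ne (hle i) ?_
  intro heq
  have h3 := key _ _ (shift_pol hc i) (by rw [shift_SS hF hc]; exact hcm) (shift_pol hd i)
    (by rw [shift_SS hF hd]; exact hdm) (by simp only [zero_add]; exact heq)
  have h4 := congrFun h3 (i * n - i)
  have h5 : i ≤ i * n := Nat.le_mul_of_pos_right i (by omega)
  rw [Nat.sub_add_cancel h5, pol_perk hc, pol_perk hd] at h4
  linarith

end Pool.Agent.W216.BL
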