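import Pool.Agent.W757.BL.Defs

/-! BL-IFT (owner helper757): analytic dependence of a nondegenerate maximum. -/

set_option autoImplicit false

namespace Pool.Agent.W216.BL

open Set Filter Topology
open scoped ContDiff
open Pool.Agent.W757.BL

theorem invertible_of_inj {N : ℕ} (H : (Fin N → ℝ) →L[ℝ] ((Fin N → ℝ) →L[ℝ] ℝ))
    (h : ∀ w, H w = 0 → w = 0) : H.IsInvertible := by
  have hinj : Function.Injective (H : (Fin N → ℝ) →ₗ[ℝ] ((Fin N → ℝ) →L[ℝ] ℝ)) := by
    rw [injective_iff_map_eq_zero]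
    exact h
  have hrank : Module.finrank ℝ (Fin N → ℝ) = Module.finrank ℝ ((Fin N → ℝ) →L[ℝ] ℝ) := by
    rw [← (LinearMap.toContinuousLinearMap (𝕜 := ℝ) (E := Fin N → ℝ) (F' := ℝ)).finrank_eq,
      Module.finrank_linearMap]
    simp
  have hfd : FiniteDimensional ℝ ((Fin N → ℝ) →L[ℝ] ℝ) :=
    Module.Finite.equiv (LinearMap.toContinuousLinearMap (𝕜 := ℝ) (E := Fin N → ℝ) (F' := ℝ))
  let e := (H : (Fin N → ℝ) →ₗ[ℝ] ((Fin N → ℝ) →L[ℝ] ℝ)).linearEquivOfInjective hinj hrank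
  refine ⟨e.toContinuousLinearEquiv, ?_⟩
  ext1 w
  exact LinearMap.linearEquivOfInjective_apply hinj hrank w

theorem t_IFT : S_IFT := by
  intro N P K p₀ u₀ hK hu₀ hPc hP hmax huniq hH
  let g : (ℝ × ℝ) × (Fin N → ℝ) → ((Fin N → ℝ) →L[ℝ] ℝ) := fun v =>
    (fderiv ℝ P v).comp (ContinuousLinearMap.inr ℝ (ℝ × ℝ) (Fin N → ℝ))
  have hg : ContDiffAt ℝ ω g (p₀, u₀) := by
    have h1 : ContDiffAt ℝ ω (fderiv ℝ P) (p₀, u₀) := hP.fderiv_right le_rfl
    exact h1.clm_comp contDiffAt_const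
  have hev : ∀ᶠ v in 𝓝 (p₀, u₀), DifferentiableAt ℝ P v :=
    (hP.eventually (by simp)).mono fun v hv => hv.differentiableAt (by simp)
  have hpart : ∀ (p : ℝ × ℝ) (u : Fin N → ℝ), DifferentiableAt ℝ P (p, u) →
      HasFDerivAt (fun u => P (p, u)) (g (p, u)) u := by
    intro p u h
    exact h.hasFDerivAt.comp u (hasFDerivAt_prodMk_right p u)
  have hcrit : ∀ (p : ℝ × ℝ) (u : Fin N → ℝ), DifferentiableAt ℝ P (p, u) →
      IsLocalMax (fun u => P (p, u)) u → g (p, u) = 0 := by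
    intro p u h h1
    exact h1.hasFDerivAt_eq_zero (hpart p u h)
  have hg0 : g (p₀, u₀) = 0 := by
    apply hcrit p₀ u₀ hev.self_of_nhds
    filter_upwards [mem_interior_iff_mem_nhds.1 hu₀] with v hv
    exact hmax v hv
  set G := fderiv ℝ g (p₀, u₀) with hG
  have hg' : HasFDerivAt g G (p₀, u₀) := (hg.differentiableAt (by simp)).hasFDerivAt
  have hinj : ∀ w, (G.comp (ContinuousLinearMap.inr ℝ (ℝ × ℝ) (Fin N → ℝ))) w = 0 → w = 0 := by
    intro w hw
    apply hH w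
    have hline : ∀ τ : ℝ, HasDerivAt (fun τ : ℝ => u₀ + τ • w) w τ := by
      intro τ
      simpa using ((hasDerivAt_id τ).smul_const w).const_add u₀
    have h1 : deriv (fun τ : ℝ => P (p₀, u₀ + τ • w)) =ᶠ[𝓝 0]
        fun τ => g (p₀, u₀ + τ • w) w := by
      have hc : Tendsto (fun τ : ℝ => ((p₀, u₀ + τ • w) : (ℝ × ℝ) × (Fin N → ℝ))) (𝓝 0)
          (𝓝 (p₀, u₀)) := by
        have h2 : Continuous (fun τ : ℝ => ((p₀, u₀ + τ • w) : (ℝ × ℝ) × (Fin N → ℝ))) := by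
          fun_prop
        have h3 := h2.tendsto 0
        simpa using h3
      filter_upwards [hc.eventually hev] with τ hτ
      have h2 := hpart p₀ (u₀ + τ • w) hτ
      exact (h2.comp_hasDerivAt τ (hline τ)).deriv
    rw [h1.deriv_eq]
    have h3 : HasDerivAt (fun τ : ℝ => ((p₀, u₀ + τ • w) : (ℝ × ℝ) × (Fin N → ℝ)))
        ((0 : ℝ × ℝ), w) 0 := (hasDerivAt_const 0 p₀).prodMk (hline 0)
    have h4 : HasDerivAt (fun τ : ℝ => g (p₀, u₀ + τ • w)) (G ((0 : ℝ × ℝ), w)) 0 :=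
      HasFDerivAt.comp_hasDerivAt_of_eq (0 : ℝ) hg' h3 (by simp)
    have h5 : HasDerivAt (fun τ : ℝ => g (p₀, u₀ + τ • w) w) (G ((0 : ℝ × ℝ), w) w) 0 := by
      have := h4.clm_apply (hasDerivAt_const (0 : ℝ) w)
      simpa using this
    rw [h5.deriv]
    have h6 : G ((0 : ℝ × ℝ), w) = 0 := hw
    rw [h6]
    rfl
  have hinv := invertible_of_inj _ hinj
  have hω : (ω : WithTop ℕ∞) ≠ 0 := by simp
  have hψ0 := hg.implicitFunction_apply_self hω hinv
  have hψ1 := hg.eventually_apply_eq_iff_implicitFunction hω hinv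
  have hψ2 := hg.contDiffAt_implicitFunction hω hinv
  set ψ := hg.implicitFunction hω hinv with hψ
  simp only at hψ0
  rw [hg0] at hψ1
  -- the values
  have hkey : (fun p : ℝ × ℝ => sSup ((fun u => P (p, u)) '' K)) =ᶠ[𝓝 p₀]
      fun p => P (p, ψ p) := by
    have hW := hev.and hψ1
    rw [nhds_prod_eq, Filter.eventually_prod_iff] at hW
    obtain ⟨pa, hpa, pb, hpb, hW⟩ := hW
    obtain ⟨U, hU1, hU2, hU3⟩ := mem_nhds_iff.1 (Filter.inter_mem hpb (mem_interior_iff_mem_nhds.1 hu₀))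
    have hcomp : IsCompact (K \ U) := hK.diff hU2
    have h1 : ∀ᶠ p in 𝓝 p₀, ∀ u ∈ K \ U, P (p, u) < P (p, u₀) := by
      refine hcomp.eventually_forall_of_forall_eventually ?_
      intro u hu
      have h2 : P (p₀, u) < P (p₀, u₀) := by
        refine lt_of_le_of_ne (hmax u hu.1) ?_
        intro h3
        exact hu.2 (by rw [huniq u hu.1 h3]; exact hU3)
      have h3 : Continuous (fun z : (ℝ × ℝ) × (Fin N → ℝ) => P (z.1, u₀)) := by fun_prop
      have h4 : Continuous (fun z : (ℝ × ℝ) × (Fin N → ℝ) => P (z.1, z.2)) := by fun_prop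
      exact (h4.tendsto (p₀, u)).eventually_lt (h3.tendsto (p₀, u)) h2
    filter_upwards [h1, hpa] with p hp hp'
    have hKne : K.Nonempty := ⟨u₀, interior_subset hu₀⟩
    obtain ⟨u, hu, humax⟩ := hK.exists_isMaxOn hKne
      (show ContinuousOn (fun u => P (p, u)) K by fun_prop)
    have huU : u ∈ U := by
      by_contra hn
      have h2 := hp u ⟨hu, hn⟩
      have h3 := humax (interior_subset hu₀)
      simp only [Set.mem_ofPred_eq] at h3
      linarith
    obtain ⟨h5, h6⟩ := hW hp' (hU1 huU).1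
    have h7 : g (p, u) = 0 := by
      apply hcrit p u h5
      filter_upwards [hU2.mem_nhds huU] with v hv
      exact humax (hU1 hv).2
    have h8 : ψ p = u := h6.1 h7
    rw [h8]
    exact IsGreatest.csSup_eq ⟨⟨u, hu, rfl⟩, by
      rintro _ ⟨v, hv, rfl⟩
      exact humax hv⟩
  refine ContDiffAt.congr_of_eventuallyEq ?_ hkey
  have h9 : ContDiffAt ℝ ω (fun p : ℝ × ℝ => ((p, ψ p) : (ℝ × ℝ) × (Fin N → ℝ))) p₀ :=
    contDiffAt_id.prodMk hψ2
  refine ContDiffAt.comp p₀ ?_ h9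
  rw [hψ0]
  exact hP

end Pool.Agent.W216.BL
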