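import Pool.Agent.W757.BL.Defs

/-! BL-PAN (owner helper757): analyticity of the perimeter. -/

set_option autoImplicit false

namespace Pool.Agent.W216.BL

open Set Filter Topology
open scoped ContDiff
open Pool.Agent.W757.BL

theorem cs_lt {L : ℝ} {N : ℕ} {u : Fin N → ℝ} (h : ∀ i, i ≤ N → cs L u i < cs L u (i + 1))
    {i j : ℕ} (hij : i < j) (hj : j ≤ N + 1) : cs L u i < cs L u j := by
  induction j with
  | zero => omega
  | succ j ih =>
    rcases Nat.lt_succ_iff_lt_or_eq.1 hij with h1 | h1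
    · exact (ih h1 (by omega)).trans (h j (by omega))
    · subst h1
      exact h i (by omega)

theorem cs_zero {L : ℝ} {N : ℕ} {u : Fin N → ℝ} : cs L u 0 = 0 := rfl

theorem cs_last {L : ℝ} {N : ℕ} {u : Fin N → ℝ} : cs L u (N + 1) = L := by
  simp [cs]

theorem cs_edge {L : ℝ} {N : ℕ} {u : Fin N → ℝ} (hN : 1 ≤ N)
    (h : ∀ i, i ≤ N → cs L u i < cs L u (i + 1)) {i : ℕ} (hi : i ≤ N) :
    cs L u (i + 1) < cs L u i + L := by
  by_cases h0 : i = 0
  · subst h0
    have h1 : cs L u (0 + 1) < cs L u (N + 1) := cs_lt h (by omega) le_rfl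
    rw [cs_last] at h1
    rw [cs_zero]
    linarith
  · have h1 : cs L u 0 < cs L u i := cs_lt h (by omega) (by omega)
    rw [cs_zero] at h1
    have h2 : cs L u (i + 1) ≤ L := by
      rcases (show i + 1 ≤ N + 1 by omega).lt_or_eq with h3 | h3
      · exact ((cs_lt h h3 le_rfl).trans_eq cs_last).le
      · rw [h3, cs_last]
    linarith

theorem cs_cd (L : ℝ) {N : ℕ} (i : ℕ) :
    ContDiff ℝ ω (fun p : (ℝ × ℝ) × (Fin N → ℝ) => cs L p.2 i) := by
  cases i with
  | zero => exact contDiff_const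
  | succ i =>
    simp only [cs]
    split_ifs with h
    · exact (contDiff_apply ℝ ℝ (⟨i, h⟩ : Fin N)).comp contDiff_snd
    · exact contDiff_const

theorem t_PAN : S_PAN := by
  intro x y x' y' L N hC hx hy hN t a u ht hu
  unfold PP
  apply ContDiffAt.sum
  intro i hi
  rw [Finset.mem_range] at hi
  unfold hh
  have hA : ∀ j, ContDiffAt ℝ ω (fun p : (ℝ × ℝ) × (Fin N → ℝ) => p.1.2 + cs L p.2 j)
      ((t, a), u) := by
    intro j
    exact (contDiff_fst.snd.add (cs_cd L j)).contDiffAt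
  have hxA : ∀ j, ContDiffAt ℝ ω (fun p : (ℝ × ℝ) × (Fin N → ℝ) => x (p.1.2 + cs L p.2 j))
      ((t, a), u) := by
    intro j
    exact ContDiffAt.comp ((t, a), u) ((hx _ (mem_univ _)).contDiffAt) (hA j)
  have hyA : ∀ j, ContDiffAt ℝ ω (fun p : (ℝ × ℝ) × (Fin N → ℝ) => y (p.1.2 + cs L p.2 j))
      ((t, a), u) := by
    intro j
    exact ContDiffAt.comp ((t, a), u) ((hy _ (mem_univ _)).contDiffAt) (hA j)
  have ht' : ContDiffAt ℝ ω (fun p : (ℝ × ℝ) × (Fin N → ℝ) => p.1.1) ((t, a), u) :=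
    contDiff_fst.fst.contDiffAt
  apply ContDiffAt.sqrt
  · exact (((ht'.mul (hxA (i + 1))).sub (ht'.mul (hxA i))).pow 2).add
      (((hyA (i + 1)).sub (hyA i)).pow 2)
  · intro h0
    simp only at h0
    have h1 := hC.conv (a + cs L u i) (a + cs L u (i + 1)) (by linarith [hu i (by omega)])
      (by linarith [cs_edge hN hu (show i ≤ N by omega)])
    have h2 : (t * x (a + cs L u (i + 1)) - t * x (a + cs L u i)) = 0 := by
      nlinarith [sq_nonneg (t * x (a + cs L u (i + 1)) - t * x (a + cs L u i)),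
        sq_nonneg (y (a + cs L u (i + 1)) - y (a + cs L u i))]
    have h3 : (y (a + cs L u (i + 1)) - y (a + cs L u i)) = 0 := by
      nlinarith [sq_nonneg (t * x (a + cs L u (i + 1)) - t * x (a + cs L u i)),
        sq_nonneg (y (a + cs L u (i + 1)) - y (a + cs L u i))]
    have h4 : x (a + cs L u (i + 1)) - x (a + cs L u i) = 0 := by
      have : t * (x (a + cs L u (i + 1)) - x (a + cs L u i)) = 0 := by linarith
      exact (mul_eq_zero.1 this).resolve_left ht.ne'
    rw [h3, h4] at h1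
    simp at h1

end Pool.Agent.W216.BL
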